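import Pool.Agent.H25.ClubTree

set_option autoImplicit false

namespace Pool.Agent.Results.MP_4cef1b_gt.Square

open Pool.Agent.H25.DSepDefs

/-- A Tychonoff space that is neither d-separable nor D-separable with a D-separable square. -/
theorem result : ∃ (X : Type) (_ : TopologicalSpace X),
    T35Space X ∧ ¬ SmallDSep X ∧ ¬ BigDSep X ∧ BigDSep (X × X) := by
  obtain ⟨X, t, h1, h2, h3⟩ := Pool.Agent.H25.ClubTree.exists_space
  refine ⟨X, t, h1, h2, fun h => h2 ?_, h3⟩
  obtain ⟨F, hF, hd⟩ := h (fun _ => Set.univ) (fun _ => dense_univ)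
  exact ⟨F, fun n => (hF n).2, hd⟩

end Pool.Agent.Results.MP_4cef1b_gt.Square
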